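import Pool.Agent.H642.KK.Stm2
import Pool.Graph.R_pool_sql_team_seeded_3997aac3.Q216.TW.Sel

set_option autoImplicit false
set_option linter.unusedSectionVars false
set_option linter.unusedVariables false
set_option linter.style.haveILetI false

/-! The dichotomy for isomorphism of countable structures implies the one for
conjugation in `Homeo(K)`. -/

namespace Pool.Agent.H668.KK

open Set TopologicalSpace MeasureTheory
open Pool.Agent.H642.CK (Io Nb Om hm Cj Dn)
open Pool.Agent.H642.KK (Dichotomy S_ST S_CONV S_CONV2)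
open Pool.Agent.W889.VC (Str Iso Faithful BP)
open Pool.Agent.Q216.TW (PC act selector prm)
open Pool.Agent.Helper750.Eff (evn odd)
open Pool.Agent.Helper750.Orbit (continuous_evn continuous_odd)

attribute [local instance] hm

theorem Cj.trans' {Z : Type} [TopologicalSpace Z] {f g k : Z ≃ₜ Z} (h : Cj f g) (h' : Cj g k) :
    Cj f k := by
  obtain ⟨a, ha⟩ := h
  obtain ⟨b, hb⟩ := h'
  refine ⟨a.trans b, fun x => ?_⟩
  show b (a (f x)) = k (b (a x))
  rw [ha, hb]

/-- the signature: infinitely many binary relations -/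
abbrev two : ℕ → ℕ := fun _ => 2

/-- the reduct -/
noncomputable def red (z : Str two) : Str two := fun i v =>
  open Classical in decide (i = 0 ∧ z i v = true)

theorem measurable_red : Measurable red := by
  refine measurable_pi_lambda _ fun i => measurable_pi_lambda _ fun v => ?_
  have h1 : Measurable (fun z : Str two => z i v) :=
    (measurable_pi_apply v).comp (measurable_pi_apply i)
  have h2 : Measurable (fun b : Bool => (open Classical in decide (i = 0 ∧ b = true))) :=
    measurable_of_finite _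
  exact h2.comp h1

theorem red_iso {z w : Str two} (h : Iso z w) : Iso (red z) (red w) := by
  obtain ⟨σ, hσ⟩ := h
  refine ⟨σ, fun i v => ?_⟩
  have h1 := hσ i v
  unfold red
  rw [h1]

/-- the pulled back relation -/
def W (ψ : Str two → (ℕ → ℕ)) (z : Str two) (m n : ℕ) : Prop :=
  z 1 ![evn (ψ (red z)) m, evn (ψ (red z)) n] = true

theorem bp_z (i : ℕ) (v : Fin 2 → ℕ) : BP (fun z : Str two => z i v = true) := by
  have h1 : Measurable (fun z : Str two => z i v) :=
    (measurable_pi_apply v).comp (measurable_pi_apply i)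
  exact h1 (measurableSet_singleton true)

theorem bp_W {ψ : Str two → (ℕ → ℕ)} (hψ : Measurable ψ) (m n : ℕ) :
    BP (fun z => W ψ z m n) := by
  have h1 : ∀ m p : ℕ, BP (fun z : Str two => evn (ψ (red z)) m = p) := by
    intro m p
    have h2 : Measurable (fun z : Str two => evn (ψ (red z)) m) :=
      (measurable_pi_apply m).comp (continuous_evn.measurable.comp (hψ.comp measurable_red))
    exact h2 (measurableSet_singleton p)
  refine (BP.ex fun p : ℕ => BP.ex fun q : ℕ =>
    (h1 m p).and ((h1 n q).and (bp_z 1 ![p, q]))).congr fun z => ?_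
  constructor
  · rintro ⟨p, q, rfl, rfl, h⟩
    exact h
  · intro h
    exact ⟨_, _, rfl, rfl, h⟩

section

variable {K : Type} [TopologicalSpace K]

/-- the structure of the clopen sets -/
noncomputable def N0 (e : ℕ ≃ {U : Set K // IsClopen U}) : Str two := fun i v =>
  open Classical in decide (i = 0 ∧ (e (v 0)).1 ⊆ (e (v 1)).1)

/-- the structure of the clopen sets together with a homeomorphism -/
noncomputable def M (e : ℕ ≃ {U : Set K // IsClopen U}) (f : K ≃ₜ K) : Str two := fun i v =>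
  open Classical in decide ((i = 0 ∧ (e (v 0)).1 ⊆ (e (v 1)).1) ∨
    (i = 1 ∧ f '' (e (v 0)).1 = (e (v 1)).1))

theorem red_M (e : ℕ ≃ {U : Set K // IsClopen U}) (f : K ≃ₜ K) : red (M e f) = N0 e := by
  funext i v
  unfold red M N0
  by_cases hi : i = 0
  · subst hi
    simp
  · simp [hi]

variable {e : ℕ ≃ {U : Set K // IsClopen U}}

theorem dec_iff {p : Prop} (i : Decidable p) : @decide p i = true ↔ p := by
  exact @decide_eq_true_iff p i

theorem N0_iff (m n : ℕ) : N0 e 0 ![m, n] = true ↔ (e m).1 ⊆ (e n).1 := by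
  unfold N0
  exact (dec_iff _).trans (and_iff_right rfl)

theorem M0_iff (f : K ≃ₜ K) (m n : ℕ) : M e f 0 ![m, n] = true ↔ (e m).1 ⊆ (e n).1 := by
  unfold M
  refine (dec_iff _).trans ⟨?_, fun h => Or.inl ⟨rfl, h⟩⟩
  rintro (⟨_, h⟩ | ⟨h, _⟩)
  · exact h
  · exact absurd h (by norm_num)

theorem M1_iff (f : K ≃ₜ K) (m n : ℕ) : M e f 1 ![m, n] = true ↔ f '' (e m).1 = (e n).1 := by
  unfold M
  simp

theorem vec (σ : ℕ → ℕ) (m n : ℕ) : (σ ∘ ![m, n] : Fin 2 → ℕ) = ![σ m, σ n] := by
  funext i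
  fin_cases i <;> rfl

theorem vec' (v : Fin 2 → ℕ) : v = ![v 0, v 1] := by
  funext i
  fin_cases i <;> rfl

/-- an automorphism of `N0` is induced by a homeomorphism -/
theorem auto (hST : S_ST) [CompactSpace K] [T2Space K] [TotallyDisconnectedSpace K]
    (ρ : Equiv.Perm ℕ) (hρ : ∀ m n, (e m).1 ⊆ (e n).1 ↔ (e (ρ m)).1 ⊆ (e (ρ n)).1) :
    ∃ h : K ≃ₜ K, ∀ m, h '' (e m).1 = (e (ρ m)).1 := by
  obtain ⟨h, hh⟩ := hST K (e.symm.trans (ρ.trans e)) (by
    intro U V
    have := hρ (e.symm U) (e.symm V)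
    rw [e.apply_symm_apply, e.apply_symm_apply] at this
    exact this)
  refine ⟨h, fun m => ?_⟩
  have := hh (e m)
  simp only [Equiv.trans_apply, Equiv.symm_apply_apply] at this
  exact this

theorem cj_of_iso (hST : S_ST) [CompactSpace K] [T2Space K] [TotallyDisconnectedSpace K]
    {f g : K ≃ₜ K} (h : Iso (M e f) (M e g)) : Cj f g := by
  obtain ⟨σ, hσ⟩ := h
  obtain ⟨h, hh⟩ := auto hST σ (e := e) (by
    intro m n
    have h1 := hσ 0 ![m, n]
    rw [vec] at h1
    rw [← M0_iff (e := e) f m n, ← h1]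
    exact M0_iff g _ _)
  have key : ∀ U : Set K, IsClopen U → g '' (h '' U) = h '' (f '' U) := by
    intro U hU
    have hc : IsClopen (f '' U) := ⟨(f.isClosed_image).2 hU.1, (f.isOpen_image).2 hU.2⟩
    have h1 := hσ 1 ![e.symm ⟨U, hU⟩, e.symm ⟨f '' U, hc⟩]
    rw [vec] at h1
    have h2 : M e f 1 ![e.symm ⟨U, hU⟩, e.symm ⟨f '' U, hc⟩] = true := by
      rw [M1_iff, e.apply_symm_apply, e.apply_symm_apply]
    rw [h2] at h1
    have h3 := (M1_iff g _ _).1 h1
    rw [← hh, ← hh, e.apply_symm_apply, e.apply_symm_apply] at h3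
    exact h3
  refine ⟨h, fun x => ?_⟩
  by_contra hne
  set y : K := f.symm (h.symm (g (h x))) with hy
  have hxy : x ≠ y := by
    intro h1
    apply hne
    have h2 : f x = h.symm (g (h x)) := by
      rw [h1, hy, f.apply_symm_apply, ← hy, ← h1]
    rw [h2, h.apply_symm_apply]
  obtain ⟨U, hU, hxU, hyU⟩ := exists_isClopen_of_totally_separated hxy
  have h3 : g (h x) ∈ h '' (f '' U) := by
    rw [← key U hU]
    exact ⟨h x, ⟨x, hxU, rfl⟩, rfl⟩
  obtain ⟨w, ⟨u, hu, rfl⟩, h4⟩ := h3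
  apply hyU
  have : y = u := by
    rw [hy, ← h4, h.symm_apply_apply, f.symm_apply_apply]
  rw [this]
  exact hu

theorem iso_of_cj {f g : K ≃ₜ K} (h : Cj f g) : Iso (M e f) (M e g) := by
  obtain ⟨h, hh⟩ := h
  let τ : {U : Set K // IsClopen U} ≃ {U : Set K // IsClopen U} :=
    { toFun := fun U => ⟨h '' U.1, (h.isClosed_image).2 U.2.1, (h.isOpen_image).2 U.2.2⟩
      invFun := fun U => ⟨h.symm '' U.1, (h.symm.isClosed_image).2 U.2.1,
        (h.symm.isOpen_image).2 U.2.2⟩
      left_inv := fun U => by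
        apply Subtype.ext
        show h.symm '' (h '' U.1) = U.1
        rw [← image_comp]
        simp
      right_inv := fun U => by
        apply Subtype.ext
        show h '' (h.symm '' U.1) = U.1
        rw [← image_comp]
        simp }
  have hτ : ∀ m, (e ((e.trans (τ.trans e.symm)) m)).1 = h '' (e m).1 := by
    intro m
    simp [τ]
  refine ⟨e.trans (τ.trans e.symm), fun i v => ?_⟩
  have e0 : (e ((⇑(e.trans (τ.trans e.symm)) ∘ v) 0)).1 = h '' (e (v 0)).1 := hτ _
  have e1 : (e ((⇑(e.trans (τ.trans e.symm)) ∘ v) 1)).1 = h '' (e (v 1)).1 := hτ _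
  unfold M
  rw [e0, e1]
  congr 1
  apply propext
  have h1 : h '' (e (v 0)).1 ⊆ h '' (e (v 1)).1 ↔ (e (v 0)).1 ⊆ (e (v 1)).1 :=
    image_subset_image_iff h.injective
  have h2 : g '' (h '' (e (v 0)).1) = h '' (e (v 1)).1 ↔ f '' (e (v 0)).1 = (e (v 1)).1 := by
    have h3 : g '' (h '' (e (v 0)).1) = h '' (f '' (e (v 0)).1) := by
      rw [← image_comp, ← image_comp]
      congr 1
      funext x
      exact (hh x).symm
    rw [h3]
    exact (image_injective.2 h.injective).eq_iff
  rw [h1, h2]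

/-- the structures isomorphic to some `M e f` -/
structure Good (e : ℕ ≃ {U : Set K // IsClopen U}) (ψ : Str two → (ℕ → ℕ)) (z : Str two) :
    Prop where
  iso : Iso (N0 e) (red z)
  tot : ∀ m, ∃ n, W ψ z m n
  sur : ∀ n, ∃ m, W ψ z m n
  mono : ∀ m m' n n', W ψ z m n → W ψ z m' n' → ((e m).1 ⊆ (e m').1 ↔ (e n).1 ⊆ (e n').1)
  far : ∀ i (v : Fin 2 → ℕ), ¬ (2 ≤ i ∧ z i v = true)

theorem bp_good {ψ : Str two → (ℕ → ℕ)} (hψ : Measurable ψ)
    (hN : MeasurableSet {z : Str two | Iso (N0 e) z}) : BP (fun z => Good e ψ z) := by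
  have h0 : BP (fun z : Str two => Iso (N0 e) (red z)) := measurable_red hN
  refine (h0.and <| (BP.all fun m => BP.ex fun n => bp_W hψ m n).and <|
    (BP.all fun n => BP.ex fun m => bp_W hψ m n).and <|
    (BP.all fun m : ℕ => BP.all fun m' : ℕ => BP.all fun n : ℕ => BP.all fun n' : ℕ =>
      (bp_W hψ m n).imp <| (bp_W hψ m' n').imp
        (BP.const ((e m).1 ⊆ (e m').1 ↔ (e n).1 ⊆ (e n').1))).and <|
    (BP.all fun i : ℕ => BP.all fun v : Fin 2 → ℕ => ((BP.const (2 ≤ i)).and
      (bp_z i v)).not)).congr fun z => ?_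
  constructor
  · rintro ⟨a, b, c, d, f⟩
    exact ⟨a, b, c, d, f⟩
  · rintro ⟨a, b, c, d, f⟩
    exact ⟨a, b, c, d, f⟩

theorem good_of_iso {ψ : Str two → (ℕ → ℕ)}
    (hs : ∀ z, Iso (N0 e) z → ψ z ∈ PC ∧ act (N0 e) (ψ z) = z) {f : K ≃ₜ K} {z : Str two}
    (h : Iso (M e f) z) : Good e ψ z := by
  have h0 : Iso (N0 e) (red z) := by
    have := red_iso h
    rwa [red_M] at this
  obtain ⟨hx, hact⟩ := hs _ h0
  set x := ψ (red z) with hxdef
  obtain ⟨σ, hσ⟩ := h
  have hev : ∀ n, evn x (odd x n) = n := hx.1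
  have hod : ∀ n, odd x (evn x n) = n := hx.2
  -- the automorphism of `N0`
  let ρ : Equiv.Perm ℕ := (prm x hx).trans σ.symm
  have hρ1 : ∀ m, σ (ρ m) = evn x m := fun m => by
    show σ (σ.symm (evn x m)) = evn x m
    rw [σ.apply_symm_apply]
  have hρ : ∀ m n, (e (ρ m)).1 ⊆ (e (ρ n)).1 ↔ (e m).1 ⊆ (e n).1 := by
    intro m n
    have h1 : z 0 ![evn x m, evn x n] = M e f 0 ![ρ m, ρ n] := by
      rw [← hσ 0 ![ρ m, ρ n], vec, hρ1, hρ1]
    have h2 : red z 0 ![evn x m, evn x n] = N0 e 0 ![m, n] := by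
      have h3 : red z 0 ![evn x m, evn x n] = act (N0 e) x 0 ![evn x m, evn x n] := by
        rw [hact]
      rw [h3]
      show N0 e 0 (odd x ∘ ![evn x m, evn x n]) = _
      rw [vec, hod, hod]
    have h4 : red z 0 ![evn x m, evn x n] = true ↔ z 0 ![evn x m, evn x n] = true := by
      unfold red
      simp
    rw [h2, N0_iff, h1, M0_iff] at h4
    exact h4.symm
  have hW : ∀ m n, W ψ z m n ↔ f '' (e (ρ m)).1 = (e (ρ n)).1 := by
    intro m n
    have h1 : z 1 ![evn x m, evn x n] = M e f 1 ![ρ m, ρ n] := by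
      rw [← hσ 1 ![ρ m, ρ n], vec, hρ1, hρ1]
    unfold W
    rw [← hxdef, h1, M1_iff]
  refine ⟨h0, fun m => ?_, fun n => ?_, fun m m' n n' h1 h2 => ?_, fun i v h1 => ?_⟩
  · have hc : IsClopen (f '' (e (ρ m)).1) :=
      ⟨(f.isClosed_image).2 (e (ρ m)).2.1, (f.isOpen_image).2 (e (ρ m)).2.2⟩
    refine ⟨ρ.symm (e.symm ⟨_, hc⟩), (hW _ _).2 ?_⟩
    rw [ρ.apply_symm_apply, e.apply_symm_apply]
  · have hc : IsClopen (f.symm '' (e (ρ n)).1) :=
      ⟨(f.symm.isClosed_image).2 (e (ρ n)).2.1, (f.symm.isOpen_image).2 (e (ρ n)).2.2⟩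
    refine ⟨ρ.symm (e.symm ⟨_, hc⟩), (hW _ _).2 ?_⟩
    rw [ρ.apply_symm_apply, e.apply_symm_apply]
    show f '' (f.symm '' (e (ρ n)).1) = _
    rw [← image_comp]
    simp
  · rw [hW] at h1 h2
    rw [← hρ m m', ← hρ n n', ← h1, ← h2]
    exact (image_subset_image_iff f.injective).symm
  · obtain ⟨h2, h3⟩ := h1
    have h4 := hσ i (σ.symm ∘ v)
    have h5 : (⇑σ ∘ ⇑σ.symm ∘ v : Fin 2 → ℕ) = v := by
      funext j
      exact σ.apply_symm_apply (v j)
    have h6 : z i (⇑σ ∘ ⇑σ.symm ∘ v) = z i v := by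
      rw [h5]
    rw [h6, h3] at h4
    unfold M at h4
    have h7 : ¬ (i = 0) := by omega
    have h8 : ¬ (i = 1) := by omega
    simp [h7, h8] at h4

theorem exists_of_good (hST : S_ST) [CompactSpace K] [T2Space K] [TotallyDisconnectedSpace K]
    {ψ : Str two → (ℕ → ℕ)}
    (hs : ∀ z, Iso (N0 e) z → ψ z ∈ PC ∧ act (N0 e) (ψ z) = z) {z : Str two}
    (h : Good e ψ z) : ∃ f : K ≃ₜ K, Iso (M e f) z ∧
      ∀ m n, f '' (e m).1 = (e n).1 ↔ W ψ z m n := by
  obtain ⟨hx, hact⟩ := hs _ h.iso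
  have fn : ∀ m n n', W ψ z m n → W ψ z m n' → n = n' := by
    intro m n n' h1 h2
    apply e.injective
    apply Subtype.ext
    exact Subset.antisymm ((h.mono m m n n' h1 h2).1 Subset.rfl)
      ((h.mono m m n' n h2 h1).1 Subset.rfl)
  have ij : ∀ m m' n, W ψ z m n → W ψ z m' n → m = m' := by
    intro m m' n h1 h2
    apply e.injective
    apply Subtype.ext
    exact Subset.antisymm ((h.mono m m' n n h1 h2).2 Subset.rfl)
      ((h.mono m' m n n h2 h1).2 Subset.rfl)
  choose t ht using h.tot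
  choose s hs' using h.sur
  let ρ : Equiv.Perm ℕ := ⟨t, s, fun m => ij _ _ _ (hs' (t m)) (ht m),
    fun n => fn _ _ _ (ht (s n)) (hs' n)⟩
  obtain ⟨f, hf⟩ := auto hST ρ (e := e) (fun m n => h.mono _ _ _ _ (ht m) (ht n))
  have hfW : ∀ m n, f '' (e m).1 = (e n).1 ↔ W ψ z m n := by
    intro m n
    rw [hf m]
    constructor
    · intro h1
      have h2 : ρ m = n := e.injective (Subtype.ext h1)
      rw [← h2]
      exact ht m
    · intro h1
      have h2 : ρ m = n := fn _ _ _ (ht m) h1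
      rw [h2]
  refine ⟨f, ⟨prm (ψ (red z)) hx, fun i v => ?_⟩, hfW⟩
  have hod : ∀ n, odd (ψ (red z)) (evn (ψ (red z)) n) = n := hx.2
  have hσ : ((prm (ψ (red z)) hx : Equiv.Perm ℕ) : ℕ → ℕ) = evn (ψ (red z)) := rfl
  rw [hσ]
  rw [vec' v, vec]
  by_cases h0 : i = 0
  · subst h0
    have h1 : red z 0 ![evn (ψ (red z)) (v 0), evn (ψ (red z)) (v 1)] =
        N0 e 0 ![v 0, v 1] := by
      have h3 : red z 0 ![evn (ψ (red z)) (v 0), evn (ψ (red z)) (v 1)] =
          act (N0 e) (ψ (red z)) 0 ![evn (ψ (red z)) (v 0), evn (ψ (red z)) (v 1)] := by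
        rw [hact]
      rw [h3]
      show N0 e 0 (odd (ψ (red z)) ∘ ![evn (ψ (red z)) (v 0), evn (ψ (red z)) (v 1)]) = _
      rw [vec, hod, hod]
    have h4 : red z 0 ![evn (ψ (red z)) (v 0), evn (ψ (red z)) (v 1)] = true ↔
        z 0 ![evn (ψ (red z)) (v 0), evn (ψ (red z)) (v 1)] = true := by
      unfold red
      simp
    apply Bool.eq_iff_iff.2
    rw [← h4, h1, N0_iff, M0_iff]
  · by_cases h1 : i = 1
    · subst h1
      apply Bool.eq_iff_iff.2
      rw [M1_iff, hfW]
      rfl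
    · have h2 : ¬ z i ![evn (ψ (red z)) (v 0), evn (ψ (red z)) (v 1)] = true :=
        fun h3 => h.far i _ ⟨by omega, h3⟩
      have h3 : ¬ M e f i ![v 0, v 1] = true := by
        unfold M
        simp [h0, h1]
      rw [Bool.not_eq_true] at h2 h3
      rw [h2, h3]

end

theorem t_CONV2 : S_CONV2 := by
  intro hST K _ _ _ _ _ _ hD B hB hinv _
  -- an enumeration of the clopen sets
  haveI : Countable {U : Set K // IsClopen U} := by
    have : Countable (Clopens K) := Clopens.countable_iff_secondCountable.2 inferInstance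
    exact Function.Injective.countable (f := fun U : {U : Set K // IsClopen U} =>
      (⟨U.1, U.2⟩ : Clopens K)) (fun U V h => Subtype.ext (congrArg Clopens.carrier h))
  haveI : Infinite {U : Set K // IsClopen U} := by
    by_contra hfin
    rw [not_infinite_iff_finite] at hfin
    have hinj : Function.Injective (fun x : K =>
        {U : {U : Set K // IsClopen U} | x ∈ U.1}) := by
      intro x y hxy
      by_contra hne
      obtain ⟨U, hU, hxU, hyU⟩ := exists_isClopen_of_totally_separated hne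
      have h1 : (⟨U, hU⟩ : {U : Set K // IsClopen U}) ∈
          {U : {U : Set K // IsClopen U} | x ∈ U.1} := hxU
      have hxy' : {U : {U : Set K // IsClopen U} | x ∈ U.1} =
          {U : {U : Set K // IsClopen U} | y ∈ U.1} := hxy
      rw [hxy'] at h1
      exact hyU h1
    haveI := Finite.of_injective _ hinj
    exact not_finite K
  obtain ⟨e⟩ : Nonempty (ℕ ≃ {U : Set K // IsClopen U}) := by
    haveI : Encodable {U : Set K // IsClopen U} := Encodable.ofCountable _
    haveI : Denumerable {U : Set K // IsClopen U} := Denumerable.ofEncodableOfInfinite _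
    exact ⟨(Denumerable.eqv _).symm⟩
  obtain ⟨hN, ψ, hψ, hs⟩ := selector (N0 e)
  have hex : ∀ z : Str two, ∃ f : K ≃ₜ K, (Good e ψ z → Iso (M e f) z ∧
      ∀ m n, f '' (e m).1 = (e n).1 ↔ W ψ z m n) ∧ (¬ Good e ψ z → f = Homeomorph.refl K) := by
    intro z
    by_cases hz : Good e ψ z
    · obtain ⟨f, hf⟩ := exists_of_good hST hs hz
      exact ⟨f, fun _ => hf, fun h => absurd hz h⟩
    · exact ⟨Homeomorph.refl K, fun h => absurd h hz, fun _ => rfl⟩
  choose Φ hΦ1 hΦ2 using hex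
  have bg : BP (fun z => Good e ψ z) := bp_good hψ hN
  have hΦm : Measurable Φ := by
    refine measurable_comap_iff.2 ?_
    letI : MeasurableSpace K := borel K
    haveI : BorelSpace K := ⟨rfl⟩
    refine measurable_pi_lambda _ fun x => ?_
    have hb : borel K = MeasurableSpace.generateFrom {s : Set K | IsClopen s} :=
      isTopologicalBasis_isClopen.borel_eq_generateFrom
    have : @Measurable _ K _ (MeasurableSpace.generateFrom {s : Set K | IsClopen s})
        (fun z : Str two => Φ z x) := by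
      refine measurable_generateFrom fun V hV => ?_
      have hV' : IsClopen V := hV
      show BP (fun z => Φ z x ∈ V)
      refine ((bg.and (BP.ex fun m : ℕ => (BP.const (x ∈ (e m).1)).and
        (bp_W hψ m (e.symm ⟨V, hV'⟩)))).or (bg.not.and (BP.const (x ∈ V)))).congr fun z => ?_
      by_cases hz : Good e ψ z
      · obtain ⟨h1, h2⟩ := hΦ1 z hz
        constructor
        · rintro (⟨_, m, hm, hW⟩ | ⟨h3, _⟩)
          · have h4 := (h2 m (e.symm ⟨V, hV'⟩)).2 hW
            rw [e.apply_symm_apply] at h4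
            have h5 : Φ z x ∈ Φ z '' (e m).1 := ⟨x, hm, rfl⟩
            rw [h4] at h5
            exact h5
          · exact absurd hz h3
        · intro h3
          have hc : IsClopen ((Φ z).symm '' V) :=
            ⟨((Φ z).symm.isClosed_image).2 hV'.1, ((Φ z).symm.isOpen_image).2 hV'.2⟩
          refine Or.inl ⟨hz, e.symm ⟨_, hc⟩, ?_, (h2 _ _).1 ?_⟩
          · rw [e.apply_symm_apply]
            exact ⟨Φ z x, h3, (Φ z).symm_apply_apply x⟩
          · rw [e.apply_symm_apply, e.apply_symm_apply]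
            show Φ z '' ((Φ z).symm '' V) = V
            rw [← image_comp]
            simp
      · have h1 := hΦ2 z hz
        constructor
        · rintro (⟨h3, _⟩ | ⟨_, h3⟩)
          · exact absurd h3 hz
          · rw [h1]
            exact h3
        · intro h3
          rw [h1] at h3
          exact Or.inr ⟨hz, h3⟩
    rw [← hb] at this
    exact this
  have hgood : ∀ f : K ≃ₜ K, ∀ z, Iso (M e f) z → Good e ψ z ∧ Cj f (Φ z) := by
    intro f z h
    have h1 := good_of_iso hs h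
    exact ⟨h1, cj_of_iso hST (h.trans (hΦ1 z h1).1.symm)⟩
  have hmain := hD two {z | Good e ψ z ∧ Φ z ∈ B} (bg.inter (hΦm hB)) (by
    have key : ∀ z w : Str two, Iso z w → z ∈ {z | Good e ψ z ∧ Φ z ∈ B} →
        w ∈ {z | Good e ψ z ∧ Φ z ∈ B} := by
      rintro z w h ⟨h1, h2⟩
      obtain ⟨h3, h4⟩ := hgood (Φ z) w ((hΦ1 z h1).1.trans h)
      exact ⟨h3, (hinv _ _ h4).1 h2⟩
    intro z w h
    exact ⟨key z w h, key w z h.symm⟩) (fun _ _ => trivial)
  rcases hmain with ⟨F, hF⟩ | ⟨g, hg1, hg2, hg3⟩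
  · left
    refine ⟨fun n => Φ (F n), fun y hy => ?_⟩
    obtain ⟨h1, h2⟩ := hgood y (M e y) (Iso.refl _)
    obtain ⟨n, hn⟩ := hF (M e y) ⟨h1, (hinv _ _ h2).1 hy⟩
    obtain ⟨h3, h4⟩ := hgood y (F n) hn.symm
    exact ⟨n, Pool.Agent.H642.CK.Cj.symm h4⟩
  · right
    refine ⟨fun c => Φ (g c), hΦm.comp hg1, fun c => (hg2 c).2, fun c d h => hg3 c d ?_⟩
    have h1 := (hΦ1 _ (hg2 c).1).1
    have h2 := (hΦ1 _ (hg2 d).1).1
    exact (h1.symm.trans (iso_of_cj h)).trans h2

end Pool.Agent.H668.KK
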